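import Pool.Agent.Helper809.Cub.J01
import Pool.Agent.Helper809.Cub.J14
import Pool.Agent.Helper809.Cub.J16

set_option autoImplicit false

/-!
# Connected cubic pairings with negative value, with control on the order

Variants of the lemmas of `Pool.Agent.Helper809.Cub.J16`, `J17` and `J20` which keep track of the
number of vertices, and a lower bound two for the degrees of the underlying simple graph.
-/

namespace Y781.CB

open Polynomial ChrRoots

theorem exists_conn_le (q : ℝ) (n : ℕ)
    (hrec : ∀ n : ℕ, T (Fin (n + 1)) q = ∑ k ∈ Finset.range (n + 1),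
      (n.choose k : ℝ) * C (Fin (k + 1)) q * T (Fin (n - k)) q)
    (hn : T (Fin n) q < 0)
    (h4 : 0 ≤ T (Fin 4) q - 3 * T (Fin 2) q ^ 2) :
    ∃ k, k ≤ n ∧ k ≠ 4 ∧ ∃ f : CP (Fin k), Conn f ∧ P (rel f) q < 0 := by
  classical
  have hex : ∃ n, T (Fin n) q < 0 := ⟨n, hn⟩
  have hT0 := J16.T_zero_8144 q
  have hT1 : T (Fin 1) q = 0 := J16.T_odd_8144 q 1 (by decide)
  have hT3 : T (Fin 3) q = 0 := J16.T_odd_8144 q 3 (by decide)
  obtain ⟨n0, hle, hn0, hmin⟩ : ∃ n0, n0 ≤ n ∧ T (Fin n0) q < 0 ∧ ∀ m < n0, 0 ≤ T (Fin m) q := by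
    refine ⟨Nat.find hex, Nat.find_min' hex hn, Nat.find_spec hex, fun m hm => ?_⟩
    exact not_lt.1 (Nat.find_min hex hm)
  obtain ⟨n', rfl⟩ : ∃ n', n0 = n' + 1 := by
    rcases n0 with _ | n'
    · rw [hT0] at hn0; linarith
    · exact ⟨n', rfl⟩
  rw [hrec n'] at hn0
  have hk : ∃ k ∈ Finset.range (n' + 1), C (Fin (k + 1)) q < 0 := by
    by_contra h
    push Not at h
    refine absurd hn0 (not_lt.2 (Finset.sum_nonneg fun k hk => ?_))
    have h1 := h k hk
    have h2 := hmin (n' - k) (by omega)
    exact mul_nonneg (mul_nonneg (Nat.cast_nonneg _) h1) h2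
  obtain ⟨k, hkn, hCk⟩ := hk
  rw [Finset.mem_range] at hkn
  have hC4 : 0 ≤ C (Fin 4) q := by
    have r1 : T (Fin 2) q = C (Fin 2) q := by
      have r := hrec 1
      rw [Finset.sum_range_succ, Finset.sum_range_one] at r
      have a1 : T (Fin (1 - 0)) q = 0 := hT1
      have a2 : T (Fin (1 - 1)) q = 1 := hT0
      rw [a1, a2] at r
      have r' : T (Fin 2) q = ((Nat.choose 1 0 : ℕ) : ℝ) * C (Fin (0 + 1)) q * 0 +
        ((Nat.choose 1 1 : ℕ) : ℝ) * C (Fin 2) q * 1 := r
      rw [r']
      simp
    have r3 : T (Fin 4) q = 3 * C (Fin 2) q * T (Fin 2) q + C (Fin 4) q := by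
      have r := hrec 3
      rw [Finset.sum_range_succ, Finset.sum_range_succ, Finset.sum_range_succ,
        Finset.sum_range_one] at r
      have a1 : T (Fin (3 - 0)) q = 0 := hT3
      have a2 : T (Fin (3 - 1)) q = T (Fin 2) q := rfl
      have a3 : T (Fin (3 - 2)) q = 0 := hT1
      have a4 : T (Fin (3 - 3)) q = 1 := hT0
      rw [a1, a2, a3, a4] at r
      have r' : T (Fin 4) q = ((Nat.choose 3 0 : ℕ) : ℝ) * C (Fin (0 + 1)) q * 0 +
        ((Nat.choose 3 1 : ℕ) : ℝ) * C (Fin 2) q * T (Fin 2) q +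
        ((Nat.choose 3 2 : ℕ) : ℝ) * C (Fin (2 + 1)) q * 0 +
        ((Nat.choose 3 3 : ℕ) : ℝ) * C (Fin 4) q * 1 := r
      rw [r']
      have b1 : Nat.choose 3 1 = 3 := rfl
      have b2 : Nat.choose 3 3 = 1 := rfl
      rw [b1, b2]
      push_cast
      ring
    rw [r3, ← r1] at h4
    linarith [h4, sq (T (Fin 2) q)]
  refine ⟨k + 1, by omega, ?_, ?_⟩
  · intro h
    have h5 : k = 3 := by omega
    subst h5
    exact absurd hCk (not_lt.2 hC4)
  · by_contra h
    push Not at h
    refine absurd hCk (not_lt.2 ?_)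
    unfold ChrRoots.C
    refine Finset.sum_nonneg fun f hf => ?_
    rw [Finset.mem_filter] at hf
    exact h f hf.2

theorem col_two (N : ℕ) : (col (fun i j : Fin 2 => i ≠ j) N : ℝ) = (N : ℝ) * (N - 1) := by
  have e : {σ : Fin 2 → Fin N // ∀ u v : Fin 2, u ≠ v → σ u ≠ σ v} ≃ (Fin 2 ↪ Fin N) :=
    { toFun := fun σ => ⟨σ.1, fun u v h => by
        by_contra hne
        exact σ.2 u v hne h⟩
      invFun := fun g => ⟨g, fun u v huv h => huv (g.injective h)⟩
      left_inv := fun σ => rfl
      right_inv := fun g => rfl }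
  unfold col
  rw [Nat.card_congr e, Nat.card_eq_fintype_card, Fintype.card_embedding_eq, Fintype.card_fin,
    Fintype.card_fin]
  rcases N with _ | N
  · simp
  · rw [Nat.succ_descFactorial_succ, Nat.descFactorial_one]
    push_cast
    ring

theorem P_two (q : ℝ) (hpoly : ∀ (W : Type) [Fintype W] (r : W → W → Prop), IsPoly (P r))
    (heq : ∀ f g : ℝ → ℝ, IsPoly f → IsPoly g → (∀ N : ℕ, f N = g N) → ∀ x, f x = g x) :
    P (fun i j : Fin 2 => i ≠ j) q = q * (q - 1) := by
  refine heq _ (fun x => x * (x - 1)) (hpoly _ _) ⟨X * (X - 1), fun x => by simp⟩ (fun N => ?_) q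
  rw [J01.P_nat, col_two]

theorem graph_of_pairing (k : ℕ)
    (hpoly : ∀ (W : Type) [Fintype W] (r : W → W → Prop), IsPoly (P r))
    (heq : ∀ f g : ℝ → ℝ, IsPoly f → IsPoly g → (∀ N : ℕ, f N = g N) → ∀ x, f x = g x)
    (f : CP (Fin k)) (hf : Conn f) (q : ℝ) (hq : 1 ≤ q) (h : P (rel f) q < 0) :
    ∃ G : SimpleGraph (Fin k), G.Connected ∧ (∀ v, Nat.card (G.neighborSet v) ≤ 3) ∧
      (∀ v, 2 ≤ Nat.card (G.neighborSet v)) ∧ P G.Adj q < 0 := by
  have hirr : ∀ u, ¬ rel f u u := by
    intro u hu
    have hcol : ∀ N : ℕ, col (rel f) N = 0 := by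
      intro N
      unfold col
      rw [Nat.card_eq_zero]
      left
      exact ⟨fun σ => σ.2 u u hu rfl⟩
    have h0 := heq (P (rel f)) (fun _ => 0) (hpoly _ _) ⟨0, by simp⟩
      (fun N => by rw [J01.P_nat, hcol]; simp) q
    rw [h0] at h
    exact lt_irrefl _ h
  have hsymm : ∀ u v, rel f u v → rel f v u := by
    rintro u v ⟨i, hi⟩
    refine ⟨(f.1 (u, i)).2, ?_⟩
    have e : (v, (f.1 (u, i)).2) = f.1 (u, i) := by rw [← hi]
    rw [e, f.2.1]
  let G : SimpleGraph (Fin k) := SimpleGraph.fromRel (rel f)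
  have hG : G.Adj = rel f := by
    funext u v
    simp only [G, SimpleGraph.fromRel_adj, eq_iff_iff]
    constructor
    · rintro ⟨_, h1 | h1⟩
      · exact h1
      · exact hsymm _ _ h1
    · intro h1
      refine ⟨?_, Or.inl h1⟩
      rintro rfl
      exact hirr _ h1
  refine ⟨G, ?_, ?_, ?_, ?_⟩
  · have := hf.1
    refine SimpleGraph.Connected.mk ?_
    intro u v
    rw [SimpleGraph.reachable_iff_reflTransGen, hG]
    exact hf.2 u v
  · intro v
    have hs : Function.Surjective (fun i : Fin 3 => (⟨(f.1 (v, i)).1, by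
        rw [SimpleGraph.mem_neighborSet, hG]; exact ⟨i, rfl⟩⟩ : G.neighborSet v)) := by
      rintro ⟨w, hw⟩
      have hw' := hw
      rw [SimpleGraph.mem_neighborSet, hG] at hw'
      obtain ⟨i, hi⟩ := hw'
      exact ⟨i, Subtype.ext hi⟩
    have := Nat.card_le_card_of_surjective _ hs
    rwa [Nat.card_fin] at this
  · intro v
    by_contra hlt
    push Not at hlt
    set w : Fin k := (f.1 (v, 0)).1 with hw
    have hadj : ∀ i : Fin 3, G.Adj v (f.1 (v, i)).1 := fun i => by rw [hG]; exact ⟨i, rfl⟩
    have hsub : Subsingleton (G.neighborSet v) := by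
      have h1 : Nat.card (G.neighborSet v) ≤ 1 := by omega
      exact (Finite.card_le_one_iff_subsingleton).1 h1
    have hall : ∀ i : Fin 3, (f.1 (v, i)).1 = w := by
      intro i
      have := hsub.elim ⟨(f.1 (v, i)).1, hadj i⟩ ⟨(f.1 (v, 0)).1, hadj 0⟩
      exact congrArg Subtype.val this
    have hinj : Function.Injective (fun i : Fin 3 => (f.1 (v, i)).2) := by
      intro i j hij
      have h1 : f.1 (v, i) = f.1 (v, j) :=
        Prod.ext ((hall i).trans (hall j).symm) hij
      have h2 := congrArg f.1 h1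
      rw [f.2.1, f.2.1] at h2
      exact (Prod.ext_iff.1 h2).2
    have hsurj : Function.Surjective (fun i : Fin 3 => (f.1 (v, i)).2) :=
      Finite.surjective_of_injective hinj
    have hback : ∀ j : Fin 3, (f.1 (w, j)).1 = v := by
      intro j
      obtain ⟨i, hi⟩ := hsurj j
      have h1 : f.1 (v, i) = (w, j) := Prod.ext (hall i) hi
      rw [← h1, f.2.1]
    have hvw : ∀ u, u = v ∨ u = w := by
      intro u
      have := hf.2 v u
      induction this with
      | refl => left; rfl
      | tail _ hbc ih =>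
        obtain ⟨i, hi⟩ := hbc
        rcases ih with rfl | h1
        · right; rw [← hi]; exact hall i
        · left; rw [← hi, h1]; exact hback i
    have hne : v ≠ w := by
      intro h1
      apply hirr v
      exact ⟨0, by rw [← hw, ← h1]⟩
    have e : Fin k ≃ Fin 2 :=
      { toFun := fun u => if u = v then 0 else 1
        invFun := fun i => if i = 0 then v else w
        left_inv := by
          intro u
          by_cases h1 : u = v
          · simp [h1]
          · have h2 : u = w := (hvw u).resolve_left h1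
            simp [h2]
            intro h3
            exact absurd h3.symm hne
        right_inv := by
          intro i
          by_cases h1 : i = 0
          · simp [h1]
          · have h2 : i = 1 := by omega
            subst h2
            simp [hne.symm] }
    have hrel : ∀ a b, rel f a b ↔ e a ≠ e b := by
      intro a b
      constructor
      · intro h1 h2
        have := e.injective h2
        subst this
        exact hirr _ h1
      · intro h1
        have h2 : a ≠ b := fun h3 => h1 (by rw [h3])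
        rcases hvw a with rfl | ha
        · rcases hvw b with rfl | hb
          · exact absurd rfl h2
          · rw [hb]; exact ⟨0, hall 0⟩
        · rcases hvw b with rfl | hb
          · rw [ha]; exact ⟨0, hback 0⟩
          · exact absurd (ha.trans hb.symm) h2
    have h5 := J14.P_congr e (rel f) (fun i j : Fin 2 => i ≠ j) hrel q
    rw [P_two q hpoly heq] at h5
    rw [h5] at h
    nlinarith
  · rw [hG]; exact h

theorem make_cubic_le
    (hgadget : ∀ (V : Type) [Fintype V] [DecidableEq V] (G : SimpleGraph V),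
      G.Connected → ∀ (v : V) (x : ℝ), x ≠ 0 → P G.Adj x = 0 →
      ∃ G' : SimpleGraph (V ⊕ Fin 5), G'.Connected ∧
        (∀ w, Nat.card (G'.neighborSet (Sum.inl w)) =
          Nat.card (G.neighborSet w) + (if w = v then 1 else 0)) ∧
        (∀ i, Nat.card (G'.neighborSet (Sum.inr i)) = 3) ∧ P G'.Adj x = 0)
    (n : ℕ) (G : SimpleGraph (Fin n)) (hc : G.Connected)
    (hd : ∀ v, Nat.card (G.neighborSet v) ≤ 3) (hn : n ≠ 4) (x : ℝ) (hx : x ≠ 0)
    (hroot : P G.Adj x = 0) :
    ∃ (m : ℕ) (G' : SimpleGraph (Fin m)),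
      m = n + 5 * (∑ v : Fin n, (3 - Nat.card (G.neighborSet v))) ∧ m ≠ 4 ∧ G'.Connected ∧
      (∀ v, Nat.card (G'.neighborSet v) = 3) ∧ P G'.Adj x = 0 := by
  obtain ⟨d, hdd⟩ : ∃ d, ∑ v : Fin n, (3 - Nat.card (G.neighborSet v)) = d := ⟨_, rfl⟩
  rw [hdd]
  induction d generalizing n G with
  | zero =>
    refine ⟨n, G, by omega, hn, hc, ?_, hroot⟩
    intro v
    have h1 := (Finset.sum_eq_zero_iff.1 hdd) v (Finset.mem_univ v)
    have h2 := hd v
    omega
  | succ d ih =>
    obtain ⟨v, hv⟩ : ∃ v, Nat.card (G.neighborSet v) < 3 := by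
      by_contra hcon
      push Not at hcon
      have h1 : ∑ v : Fin n, (3 - Nat.card (G.neighborSet v)) = 0 := by
        refine Finset.sum_eq_zero fun v _ => ?_
        have := hcon v
        omega
      omega
    obtain ⟨G', g1, g2, g3, g4⟩ := hgadget (Fin n) G hc v x hx hroot
    set e : Fin n ⊕ Fin 5 ≃ Fin (n + 5) := finSumFinEquiv with he
    set G2 : SimpleGraph (Fin (n + 5)) := G'.comap e.symm with hG2
    have iso : G2 ≃g G' := SimpleGraph.Iso.comap e.symm G'
    have hiso : ∀ a, Nat.card (G2.neighborSet a) = Nat.card (G'.neighborSet (e.symm a)) := by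
      intro a
      exact Nat.card_congr ((SimpleGraph.Iso.comap e.symm G').mapNeighborSet a)
    have hdeg : ∀ b : Fin n ⊕ Fin 5, Nat.card (G'.neighborSet b) ≤ 3 := by
      rintro (w | i)
      · rw [g2 w]
        by_cases hw : w = v
        · rw [if_pos hw, hw]
          omega
        · rw [if_neg hw]
          exact hd w
      · rw [g3 i]
    have hsum : ∑ a : Fin (n + 5), (3 - Nat.card (G2.neighborSet a)) = d := by
      have h1 : ∑ a : Fin (n + 5), (3 - Nat.card (G2.neighborSet a)) =
          ∑ b : Fin n ⊕ Fin 5, (3 - Nat.card (G'.neighborSet b)) := by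
        rw [← Equiv.sum_comp e.symm]
        exact Finset.sum_congr rfl fun a _ => by rw [hiso]
      rw [h1, Fintype.sum_sum_type]
      have h2 : ∑ i : Fin 5, (3 - Nat.card (G'.neighborSet (Sum.inr i))) = 0 :=
        Finset.sum_eq_zero fun i _ => by rw [g3 i]; rfl
      rw [h2, add_zero]
      have h3 : ∑ w : Fin n, (3 - Nat.card (G.neighborSet w)) =
          ∑ w : Fin n, (3 - Nat.card (G'.neighborSet (Sum.inl w))) +
            ∑ w : Fin n, (if w = v then 1 else 0) := by
        rw [← Finset.sum_add_distrib]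
        refine Finset.sum_congr rfl fun w _ => ?_
        rw [g2 w]
        by_cases hw : w = v
        · rw [if_pos hw, hw]
          omega
        · rw [if_neg hw]
          omega
      rw [Finset.sum_ite_eq' Finset.univ v (fun _ => 1), if_pos (Finset.mem_univ v)] at h3
      omega
    obtain ⟨m, G3, r1, r2, r3, r4, r5⟩ := ih (n + 5) G2 (iso.connected_iff.2 g1)
      (fun a => by rw [hiso]; exact hdeg _) (by omega)
      (by
        rw [← J14.P_congr e G'.Adj G2.Adj (fun u v => by
          rw [hG2, SimpleGraph.comap_adj, Equiv.symm_apply_apply, Equiv.symm_apply_apply]) x]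
        exact g4) hsum
    exact ⟨m, G3, by omega, r2, r3, r4, r5⟩

end Y781.CB
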