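import Pool.Agent.Helper809.Cub.Chain
import Pool.Agent.Y781.CB.A
import Pool.Agent.Y781.CB.N.NumFinal
import Pool.Agent.Y781.CB.N.J24

set_option autoImplicit false

/-!
# A connected cubic graph of order at most 7416 with a real chromatic root above 44/15
-/

namespace Y781.CB

open Polynomial

theorem root_of_neg {V : Type} [Fintype V] (r : V → V → Prop) (q : ℝ) (hq : q ≤ 3)
    (h : ChrRoots.P r q < 0) :
    ∃ x : ℝ, q < x ∧ x ≤ 3 ∧ ChrRoots.P r x = 0 := by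
  obtain ⟨p, hp⟩ := ChrRoots.isPoly_P r
  have h3 : 0 ≤ ChrRoots.P r 3 := by
    have := ChrRoots.J01.P_nat r 3
    norm_num at this
    rw [this]
    positivity
  have hcont : ContinuousOn (ChrRoots.P r) (Set.Icc q 3) := by
    have : ChrRoots.P r = fun x => p.eval x := funext hp
    rw [this]
    exact p.continuous.continuousOn
  have := intermediate_value_Icc hq hcont ⟨h.le, h3⟩
  obtain ⟨x, ⟨hx1, hx2⟩, hx⟩ := this
  refine ⟨x, lt_of_le_of_ne hx1 ?_, hx2, hx⟩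
  rintro rfl
  rw [hx] at h
  exact lt_irrefl _ h

theorem exists_pairing_le (q : ℝ) (N : ℕ) (hS : ChrRoots.Sr q N < 0)
    (h24 : 0 ≤ 24 * ChrRoots.Sr q 4 - 3 * (2 * ChrRoots.Sr q 2) ^ 2) :
    ∃ k, k ≤ N ∧ k ≠ 4 ∧ ∃ f : ChrRoots.CP (Fin k), ChrRoots.Conn f ∧
      ChrRoots.P (ChrRoots.rel f) q < 0 := by
  have h1 : ChrRoots.T (Fin N) q < 0 := by
    rw [ChrRoots.T_eq, Fintype.card_fin]
    have : (0 : ℝ) < (Nat.factorial N : ℝ) := by exact_mod_cast Nat.factorial_pos _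
    exact mul_neg_of_pos_of_neg this hS
  have h4 : 0 ≤ ChrRoots.T (Fin 4) q - 3 * ChrRoots.T (Fin 2) q ^ 2 := by
    rw [ChrRoots.T_eq, ChrRoots.T_eq, Fintype.card_fin, Fintype.card_fin]
    have e4 : ((Nat.factorial 4 : ℕ) : ℝ) = 24 := by norm_num [Nat.factorial]
    have e2 : ((Nat.factorial 2 : ℕ) : ℝ) = 2 := by norm_num [Nat.factorial]
    rw [e4, e2]
    exact h24
  exact exists_conn_le q N (fun n => ChrRoots.T_rec n q) h1 h4

theorem exists_cubic_le (q : ℝ) (hq1 : 1 ≤ q) (hq3 : q ≤ 3) (N : ℕ) (hS : ChrRoots.Sr q N < 0)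
    (h24 : 0 ≤ 24 * ChrRoots.Sr q 4 - 3 * (2 * ChrRoots.Sr q 2) ^ 2) :
    ∃ (m : ℕ) (G : SimpleGraph (Fin m)), m ≤ 6 * N ∧ m ≠ 4 ∧ G.Connected ∧
      (∀ v, Nat.card (G.neighborSet v) = 3) ∧
      ∃ x : ℝ, q < x ∧ x ≤ 3 ∧ ChrRoots.P G.Adj x = 0 := by
  obtain ⟨k, hk0, hk, f, hf, hneg⟩ := exists_pairing_le q N hS h24
  obtain ⟨G, hG, hd, hd2, hP⟩ := graph_of_pairing k
    (fun W _ r => ChrRoots.isPoly_P r) (fun f g hf hg h x => hf.eq_of_nat hg h x) f hf q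
    hq1 hneg
  obtain ⟨x, hx, hx3, hroot⟩ := root_of_neg G.Adj q hq3 hP
  obtain ⟨m, G', hmk, hm, hG', hd', hP'⟩ := make_cubic_le
    (fun V _ _ G hc v x hx hr => ChrRoots.J19.gadget_aux V G (fun W _ r N => ChrRoots.J01.P_nat r N)
      (fun W _ r => ChrRoots.isPoly_P r) (fun f g hf hg h x => hf.eq_of_nat hg h x) hc v x hx hr)
    k G hG hd hk x (by linarith) hroot
  refine ⟨m, G', ?_, hm, hG', hd', x, hx, hx3, hP'⟩
  have h1 : ∑ v : Fin k, (3 - Nat.card (G.neighborSet v)) ≤ ∑ _v : Fin k, 1 :=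
    Finset.sum_le_sum fun v _ => by have := hd2 v; omega
  rw [Finset.sum_const, Finset.card_univ, Fintype.card_fin, smul_eq_mul, mul_one] at h1
  omega

theorem exists_cubic_A :
    ∃ (m : ℕ) (G : SimpleGraph (Fin m)), m ≤ 7416 ∧ m ≠ 4 ∧ G.Connected ∧
      (∀ v, Nat.card (G.neighborSet v) = 3) ∧
      ∃ x : ℝ, 44 / 15 < x ∧ x ≤ 3 ∧ ChrRoots.P G.Adj x = 0 :=
  exists_cubic_le (44 / 15) (by norm_num) (by norm_num) 1236 ChrRoots.Sr_negA
    ChrRoots.J24A.Sr_small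

end Y781.CB
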