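import Pool.Agent.Helper809.Cub.J01
import Pool.Agent.Helper809.Cub.J02
import Pool.Agent.Helper809.Cub.J14

set_option autoImplicit false

/-!
# Adding isolated vertices to a cubic graph
-/

namespace Y781.CB

open Polynomial ChrRoots

/-- the graph `G` with `j` further isolated vertices -/
def addIso {V : Type} (G : SimpleGraph V) (j : ℕ) : SimpleGraph (V ⊕ Fin j) where
  Adj a b := match a, b with
    | Sum.inl u, Sum.inl v => G.Adj u v
    | _, _ => False
  symm := ⟨by
    rintro (u | u) (v | v) h
    · exact SimpleGraph.Adj.symm (G := G) h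
    · exact h
    · exact h
    · exact h⟩
  loopless := ⟨by
    rintro (u | u) h
    · exact G.irrefl h
    · exact h⟩

theorem addIso_inl {V : Type} (G : SimpleGraph V) (j : ℕ) (u v : V) :
    (addIso G j).Adj (Sum.inl u) (Sum.inl v) ↔ G.Adj u v := Iff.rfl

theorem addIso_inr {V : Type} (G : SimpleGraph V) (j : ℕ) (i : Fin j) (a : V ⊕ Fin j) :
    ¬ (addIso G j).Adj (Sum.inr i) a := by
  rcases a with a | a
  · exact fun h => h
  · exact fun h => h

theorem addIso_inr' {V : Type} (G : SimpleGraph V) (j : ℕ) (i : Fin j) (a : V ⊕ Fin j) :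
    ¬ (addIso G j).Adj a (Sum.inr i) := fun h => addIso_inr G j i a h.symm

theorem col_addIso {V : Type} (G : SimpleGraph V) (j N : ℕ) :
    col (addIso G j).Adj N = col G.Adj N * N ^ j := by
  unfold col
  have e : {σ : V ⊕ Fin j → Fin N // ∀ u v, (addIso G j).Adj u v → σ u ≠ σ v} ≃
      {σ : V → Fin N // ∀ u v, G.Adj u v → σ u ≠ σ v} × (Fin j → Fin N) :=
    { toFun := fun σ => (⟨fun a => σ.1 (Sum.inl a), fun u v h => σ.2 (Sum.inl u) (Sum.inl v) h⟩,
        fun i => σ.1 (Sum.inr i))
      invFun := fun p => ⟨Sum.elim p.1.1 p.2, by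
        rintro (u | u) (v | v) h
        · exact p.1.2 u v h
        · exact absurd h (addIso_inr' G j v _)
        · exact absurd h (addIso_inr G j u _)
        · exact absurd h (addIso_inr G j u _)⟩
      left_inv := fun σ => by
        apply Subtype.ext
        funext x
        rcases x with a | i <;> rfl
      right_inv := fun p => rfl }
  rw [Nat.card_congr e, Nat.card_prod]
  congr 1
  simp

theorem P_addIso {V : Type} [Fintype V] (G : SimpleGraph V) (j : ℕ) (q : ℝ) :
    P (addIso G j).Adj q = P G.Adj q * q ^ j := by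
  obtain ⟨p, hp⟩ := isPoly_P G.Adj
  refine IsPoly.eq_of_nat (f := P (addIso G j).Adj) (g := fun q => P G.Adj q * q ^ j)
    (isPoly_P _) ⟨p * X ^ j, fun x => ?_⟩ (fun N => ?_) q
  · rw [Polynomial.eval_mul, Polynomial.eval_pow, Polynomial.eval_X, ← hp x]
  · rw [J01.P_nat, J01.P_nat, col_addIso]
    push_cast
    ring

theorem card_inl {V : Type} (G : SimpleGraph V) (j : ℕ) (v : V) :
    Nat.card ((addIso G j).neighborSet (Sum.inl v)) = Nat.card (G.neighborSet v) := by
  refine Nat.card_congr
    { toFun := fun a => match a with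
        | ⟨Sum.inl u, h⟩ => ⟨u, h⟩
        | ⟨Sum.inr i, h⟩ => absurd (show (addIso G j).Adj (Sum.inl v) (Sum.inr i) from h)
            (addIso_inr' G j i _)
      invFun := fun u => ⟨Sum.inl u.1, u.2⟩
      left_inv := ?_
      right_inv := ?_ }
  · rintro ⟨u | i, h⟩
    · rfl
    · exact absurd (show (addIso G j).Adj (Sum.inl v) (Sum.inr i) from h) (addIso_inr' G j i _)
  · intro u
    rfl

theorem card_inr {V : Type} (G : SimpleGraph V) (j : ℕ) (i : Fin j) :
    Nat.card ((addIso G j).neighborSet (Sum.inr i)) = 0 := by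
  have : IsEmpty ((addIso G j).neighborSet (Sum.inr i)) :=
    ⟨fun a => addIso_inr G j i a.1 a.2⟩
  exact Nat.card_of_isEmpty

/-- For every `n ≥ m` a connected cubic graph of order `m ≠ 4` extends to a graph of order `n` of
maximum degree three without component `K_4`, with the same real root. -/
theorem exists_order {m : ℕ} (G : SimpleGraph (Fin m)) (hm : m ≠ 4) (hG : G.Connected)
    (hd : ∀ v, Nat.card (G.neighborSet v) = 3) (x : ℝ) (hx : P G.Adj x = 0) (n : ℕ)
    (hn : m ≤ n) :
    ∃ G' : SimpleGraph (Fin n), (∀ v, Nat.card (G'.neighborSet v) ≤ 3) ∧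
      (∃ v, Nat.card (G'.neighborSet v) = 3) ∧
      (∀ c : G'.ConnectedComponent, ¬ Nonempty (G'.induce c.supp ≃g (⊤ : SimpleGraph (Fin 4)))) ∧
      P G'.Adj x = 0 := by
  obtain ⟨j, rfl⟩ := Nat.exists_eq_add_of_le hn
  set e : Fin m ⊕ Fin j ≃ Fin (m + j) := finSumFinEquiv with he
  set H := addIso G j with hH
  set G2 : SimpleGraph (Fin (m + j)) := H.comap e.symm with hG2
  have iso : G2 ≃g H := SimpleGraph.Iso.comap e.symm H
  have hiso : ∀ a, Nat.card (G2.neighborSet a) = Nat.card (H.neighborSet (e.symm a)) := by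
    intro a
    exact Nat.card_congr ((SimpleGraph.Iso.comap e.symm H).mapNeighborSet a)
  have hne : Nonempty (Fin m) := hG.nonempty
  refine ⟨G2, ?_, ?_, ?_, ?_⟩
  · intro v
    rw [hiso]
    rcases e.symm v with w | i
    · rw [card_inl, hd]
    · rw [card_inr]
      omega
  · refine ⟨e (Sum.inl (Classical.arbitrary _)), ?_⟩
    rw [hiso, Equiv.symm_apply_apply, card_inl, hd]
  · rintro c ⟨f⟩
    have hcard : Nat.card c.supp = 4 := by
      rw [Nat.card_congr f.toEquiv]
      simp
    -- every vertex of the component is an old vertex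
    have hinl : ∀ a ∈ c.supp, ∃ v, e.symm a = Sum.inl v := by
      intro a ha
      rcases h : e.symm a with v | i
      · exact ⟨v, rfl⟩
      · exfalso
        obtain ⟨t, ht⟩ : ∃ t : Fin 4, t ≠ f ⟨a, ha⟩ := exists_ne _
        have h1 : (⊤ : SimpleGraph (Fin 4)).Adj (f ⟨a, ha⟩) t := by
          rw [SimpleGraph.top_adj]; exact ht.symm
        have h2 : (G2.induce c.supp).Adj ⟨a, ha⟩ (f.symm t) := by
          rw [← f.map_adj_iff, RelIso.apply_symm_apply]
          exact h1
        have h3 : H.Adj (e.symm a) (e.symm (f.symm t).1) := h2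
        rw [h] at h3
        exact addIso_inr G j i _ h3
    have hne2 : c.supp.Nonempty := c.nonempty_supp
    obtain ⟨a, ha⟩ := hne2
    obtain ⟨v, hv⟩ := hinl a ha
    have hall : ∀ w : Fin m, e (Sum.inl w) ∈ c.supp := by
      intro w
      have h1 : G.Reachable w v := hG.preconnected w v
      let φ : G →g G2 :=
        { toFun := fun u => e (Sum.inl u)
          map_rel' := by
            intro u u' hu
            show H.Adj (e.symm (e (Sum.inl u))) (e.symm (e (Sum.inl u')))
            rw [Equiv.symm_apply_apply, Equiv.symm_apply_apply]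
            exact hu }
      have h2 : G2.Reachable (e (Sum.inl w)) (e (Sum.inl v)) := h1.map φ
      have h3 : e (Sum.inl v) = a := by rw [← hv, Equiv.apply_symm_apply]
      rw [h3] at h2
      rw [SimpleGraph.ConnectedComponent.mem_supp_iff] at ha ⊢
      rw [← ha]
      exact SimpleGraph.ConnectedComponent.sound h2
    have hm4 : Nat.card c.supp = m := by
      have e2 : c.supp ≃ Fin m :=
        { toFun := fun a => Classical.choose (hinl a.1 a.2)
          invFun := fun w => ⟨e (Sum.inl w), hall w⟩
          left_inv := by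
            intro a
            apply Subtype.ext
            show e (Sum.inl (Classical.choose (hinl a.1 a.2))) = a.1
            rw [← Classical.choose_spec (hinl a.1 a.2), Equiv.apply_symm_apply]
          right_inv := by
            intro w
            have h1 := (Equiv.symm_apply_apply e (Sum.inl w)).symm.trans
              (Classical.choose_spec (hinl (e (Sum.inl w)) (hall w)))
            exact (Sum.inl_injective h1).symm }
      rw [Nat.card_congr e2]
      simp
    omega
  · have h1 := J14.P_congr e H.Adj G2.Adj (fun u v => by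
      rw [hG2, SimpleGraph.comap_adj, Equiv.symm_apply_apply, Equiv.symm_apply_apply]) x
    rw [← h1, hH, P_addIso, hx, zero_mul]

end Y781.CB
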